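import Mathlib

/-! # From tuples with a large good subset to good subsets of `k` elements -/

set_option autoImplicit false

namespace Pool.Agent.U403.Dick

open Finset

/-- `m ≤ M` and `k ≤ m`: the falling factorials -/
lemma choose_ratio {m M k : ℕ} (hk : k ≤ m) (hM : 0 < M) :
    (((m : ℝ) - k) / M) ^ k * (M.choose k : ℝ) ≤ (m.choose k : ℝ) := by
  have hM0 : (0 : ℝ) < M := by exact_mod_cast hM
  have hkf : (0 : ℝ) < (k.factorial : ℝ) := by exact_mod_cast k.factorial_pos
  have h1 : (M.choose k : ℝ) ≤ (M : ℝ) ^ k / k.factorial := Nat.choose_le_pow_div k M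
  have h2 : ((m : ℝ) - k) ^ k / k.factorial ≤ (m.choose k : ℝ) := by
    have h3 : (m + 1 - k) ^ k ≤ m.descFactorial k := Nat.pow_sub_le_descFactorial _ _
    have h4 : (m.descFactorial k : ℝ) = k.factorial * (m.choose k : ℝ) := by
      exact_mod_cast Nat.descFactorial_eq_factorial_mul_choose m k
    have h5 : ((m : ℝ) - k) ^ k ≤ ((m + 1 - k : ℕ) : ℝ) ^ k := by
      have hk' : (k : ℝ) ≤ m := by exact_mod_cast hk
      apply pow_le_pow_left₀ (by linarith)
      rw [Nat.cast_sub (by omega)]
      push_cast
      linarith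
    have h6 : ((m + 1 - k : ℕ) : ℝ) ^ k ≤ (m.descFactorial k : ℝ) := by exact_mod_cast h3
    rw [div_le_iff₀ hkf]
    calc ((m : ℝ) - k) ^ k ≤ (m.descFactorial k : ℝ) := h5.trans h6
      _ = _ := by rw [h4]; ring
  refine le_trans ?_ h2
  have hk' : (0 : ℝ) ≤ ((m : ℝ) - k) / M := by
    have : (k : ℝ) ≤ m := by exact_mod_cast hk
    exact div_nonneg (by linarith) hM0.le
  calc (((m : ℝ) - k) / M) ^ k * (M.choose k : ℝ) ≤ (((m : ℝ) - k) / M) ^ k * ((M : ℝ) ^ k / k.factorial) :=
        mul_le_mul_of_nonneg_left h1 (pow_nonneg hk' _)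
    _ = _ := by
        rw [div_pow]
        field_simp

open Classical in
/-- the tuples with a given image of a set of `k` indices -/
lemma fiber_le {W : Type} [Fintype W] {T k : ℕ} (J : Finset (Fin T)) (hJ : J.card = k) (I : Finset W)
    (hI : I.card = k) : (univ.filter (fun u : Fin T → W => Function.Injective u ∧ J.image u = I)).card ≤
      k.factorial * Fintype.card W ^ (T - k) := by
  have h1 : Fintype.card (J ↪ I) = k.factorial := by
    rw [Fintype.card_embedding_eq, Fintype.card_coe, Fintype.card_coe, hI, hJ, Nat.descFactorial_self]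
  have h2 : Fintype.card ((Jᶜ : Finset (Fin T)) → W) = Fintype.card W ^ (T - k) := by
    rw [Fintype.card_fun, Fintype.card_coe, card_compl, Fintype.card_fin, hJ]
  rw [← h1, ← h2, ← Fintype.card_prod]
  have hmem : ∀ u : Fin T → W, Function.Injective u ∧ J.image u = I → ∀ j : J, u j ∈ I := by
    intro u hu j
    rw [← hu.2]
    exact mem_image_of_mem u j.2
  let φ : {u : Fin T → W // Function.Injective u ∧ J.image u = I} → (J ↪ I) × ((Jᶜ : Finset (Fin T)) → W) :=
    fun u => (⟨fun j => ⟨u.1 j, hmem u.1 u.2 j⟩, fun i j hij => by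
      have := congrArg Subtype.val hij
      exact Subtype.ext (u.2.1 this)⟩, fun j => u.1 j)
  have hφ : Function.Injective φ := by
    intro u v huv
    apply Subtype.ext
    funext i
    have h3 := congrArg Prod.fst huv
    have h4 := congrArg Prod.snd huv
    by_cases hi : i ∈ J
    · have h5 := DFunLike.congr_fun h3 ⟨i, hi⟩
      exact congrArg Subtype.val h5
    · exact congrFun h4 ⟨i, mem_compl.2 hi⟩
  rw [← Fintype.card_subtype]
  exact Fintype.card_le_of_injective φ hφ

open Classical in
/-- double counting -/
lemma count {W : Type} [Fintype W] (Good : Finset W → Prop) (hG : ∀ I J, I ⊆ J → Good J → Good I)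
    {T m k : ℕ} : m.choose k * (univ.filter (fun u : Fin T → W => Function.Injective u ∧
        ∃ J : Finset (Fin T), m ≤ J.card ∧ Good (J.image u))).card ≤
      T.choose k * ((((univ : Finset W).powersetCard k).filter Good).card *
        (k.factorial * Fintype.card W ^ (T - k))) := by
  obtain ⟨U, hU⟩ : ∃ U : Finset (Fin T → W), U = univ.filter (fun u : Fin T → W => Function.Injective u ∧
    ∃ J : Finset (Fin T), m ≤ J.card ∧ Good (J.image u)) := ⟨_, rfl⟩
  obtain ⟨P, hP⟩ : ∃ P : Finset (Finset (Fin T)), P = (univ : Finset (Fin T)).powersetCard k := ⟨_, rfl⟩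
  have hlow : m.choose k * U.card ≤ ∑ u ∈ U, (P.filter (fun J => Good (J.image u))).card := by
    rw [mul_comm, ← smul_eq_mul, ← sum_const]
    refine sum_le_sum fun u hu => ?_
    rw [hU, mem_filter] at hu
    obtain ⟨-, -, J0, hJ0, hg⟩ := hu
    calc m.choose k ≤ J0.card.choose k := Nat.choose_le_choose k hJ0
      _ = (J0.powersetCard k).card := (card_powersetCard k J0).symm
      _ ≤ _ := by
          apply card_le_card
          intro J hJ
          rw [mem_powersetCard] at hJ
          rw [mem_filter, hP, mem_powersetCard]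
          exact ⟨⟨subset_univ _, hJ.2⟩, hG _ _ (image_subset_image hJ.1) hg⟩
  have hswap : ∑ u ∈ U, (P.filter (fun J => Good (J.image u))).card =
      ∑ J ∈ P, (U.filter (fun u => Good (J.image u))).card := by
    simp only [card_filter]
    exact sum_comm
  have hup : ∀ J ∈ P, (U.filter (fun u => Good (J.image u))).card ≤
      (((univ : Finset W).powersetCard k).filter Good).card * (k.factorial * Fintype.card W ^ (T - k)) := by
    intro J hJ
    rw [hP, mem_powersetCard] at hJ
    have hsub : U.filter (fun u => Good (J.image u)) ⊆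
        (((univ : Finset W).powersetCard k).filter Good).biUnion (fun I =>
          univ.filter (fun u : Fin T → W => Function.Injective u ∧ J.image u = I)) := by
      intro u hu
      rw [mem_filter, hU, mem_filter] at hu
      obtain ⟨⟨-, hinj, -⟩, hg⟩ := hu
      rw [mem_biUnion]
      refine ⟨J.image u, ?_, ?_⟩
      · rw [mem_filter, mem_powersetCard]
        exact ⟨⟨subset_univ _, by rw [card_image_of_injective _ hinj, hJ.2]⟩, hg⟩
      · rw [mem_filter]
        exact ⟨mem_univ _, hinj, rfl⟩
    refine (card_le_card hsub).trans (card_biUnion_le.trans ?_)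
    refine (sum_le_sum fun I hI => fiber_le J hJ.2 I ?_).trans ?_
    · rw [mem_filter, mem_powersetCard] at hI
      exact hI.1.2
    · rw [sum_const, smul_eq_mul]
  calc m.choose k * (univ.filter (fun u : Fin T → W => Function.Injective u ∧
        ∃ J : Finset (Fin T), m ≤ J.card ∧ Good (J.image u))).card
      = m.choose k * U.card := by rw [hU]
    _ ≤ ∑ J ∈ P, (U.filter (fun u => Good (J.image u))).card := hswap ▸ hlow
    _ ≤ ∑ J ∈ P, (((univ : Finset W).powersetCard k).filter Good).card *
          (k.factorial * Fintype.card W ^ (T - k)) := sum_le_sum hup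
    _ = _ := by
        rw [sum_const, smul_eq_mul, hP, card_powersetCard, card_univ, Fintype.card_fin]

end Pool.Agent.U403.Dick
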