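import Pool.Agent.U403.Dick.Mer
import Pool.Agent.U403.Dick.Cnt

/-! # Few sets of shifts in an interval are admissible -/

set_option autoImplicit false

namespace Pool.Agent.U403.Dick

open Finset Filter Topology

/-- the product of the primes up to `y` -/
def Qy (y : ℕ) : ℕ := ∏ p ∈ (Icc 1 y).filter Nat.Prime, p

lemma Qy_pos (y : ℕ) : 0 < Qy y := prod_pos fun _ hp => (mem_filter.1 hp).2.pos

lemma Qy_le (y : ℕ) : Qy y ≤ 4 ^ y := by
  have h : Qy y = primorial y := by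
    unfold Qy primorial
    apply prod_congr _ (fun _ _ => rfl)
    ext p
    rw [mem_filter, mem_filter, mem_Icc, mem_range]
    constructor
    · rintro ⟨⟨_, h2⟩, h3⟩
      exact ⟨by omega, h3⟩
    · rintro ⟨h2, h3⟩
      exact ⟨⟨h3.pos, by omega⟩, h3⟩
  rw [h]
  exact primorial_le_four_pow y

lemma Qy_totient (y : ℕ) : ((Qy y).totient : ℝ) = Qy y * Pz y := by
  have h := Nat.totient_eq_mul_prod_factors (Qy y)
  have h1 : (Qy y).primeFactors = (Icc 1 y).filter Nat.Prime := by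
    unfold Qy
    exact Nat.primeFactors_prod fun p hp => (mem_filter.1 hp).2
  rw [h1] at h
  have h2 : (((Qy y).totient : ℚ) : ℝ) = (((Qy y : ℚ) * ∏ p ∈ (Icc 1 y).filter Nat.Prime, (1 - (p : ℚ)⁻¹) : ℚ) : ℝ) := by
    rw [h]
  push_cast at h2
  rw [h2]
  rfl

/-- the sets of shifts which miss a class modulo every prime -/
def AdmS (J : Finset ℕ) : Prop := ∀ p : ℕ, p.Prime → ∃ r : ℕ, ∀ b ∈ J, ¬ p ∣ r + b

open Classical in
lemma adm_count (n k y : ℕ) : (((Icc 1 n).powersetCard k).filter AdmS).card ≤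
    Qy y * ((Qy y).totient * (n / Qy y + 1)).choose k := by
  obtain ⟨Q, hQ⟩ : ∃ Q : ℕ, Q = Qy y := ⟨_, rfl⟩
  have hQ0 : 0 < Q := by rw [hQ]; exact Qy_pos y
  rw [← hQ]
  have hsub : ((Icc 1 n).powersetCard k).filter AdmS ⊆
      (range Q).biUnion (fun e => ((Icc 1 n).filter (fun b => Q.Coprime (e + b))).powersetCard k) := by
    intro J hJ
    rw [mem_filter, mem_powersetCard] at hJ
    obtain ⟨⟨hJ1, hJ2⟩, hJ3⟩ := hJ
    choose r hr using hJ3
    obtain ⟨e, he⟩ := Nat.chineseRemainderOfFinset (fun p => if hp : p.Prime then r p hp else 0) id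
      ((Icc 1 y).filter Nat.Prime) (fun p hp => (mem_filter.1 hp).2.ne_zero)
      (fun p hp q hq hpq => (Nat.coprime_primes (mem_filter.1 hp).2 (mem_filter.1 hq).2).2 hpq)
    rw [mem_biUnion]
    refine ⟨e % Q, mem_range.2 (Nat.mod_lt _ hQ0), ?_⟩
    rw [mem_powersetCard]
    refine ⟨fun b hb => ?_, hJ2⟩
    rw [mem_filter]
    refine ⟨hJ1 hb, ?_⟩
    have hcop : (Qy y).Coprime (e % Q + b) := by
      unfold Qy
      apply Nat.Coprime.prod_left
      intro p hp
      have hpp := (mem_filter.1 hp).2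
      rw [hpp.coprime_iff_not_dvd]
      intro hd
      apply hr p hpp b hb
      have h1 := he p hp
      rw [dif_pos hpp] at h1
      have hpQ : p ∣ Q := by
        rw [hQ]
        exact dvd_prod_of_mem (fun p => p) hp
      have h2 : e % Q ≡ e [MOD p] := (Nat.mod_modEq e Q).of_dvd hpQ
      have h3 : e % Q + b ≡ r p hpp + b [MOD p] := (h2.trans h1).add_right b
      exact (h3.dvd_iff dvd_rfl).1 hd
    rw [← hQ] at hcop
    exact hcop
  refine (card_le_card hsub).trans (card_biUnion_le.trans ?_)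
  have hcard : ∀ e ∈ range Q, (((Icc 1 n).filter (fun b => Q.Coprime (e + b))).powersetCard k).card ≤
      (Q.totient * (n / Q + 1)).choose k := by
    intro e _
    rw [card_powersetCard]
    apply Nat.choose_le_choose
    have h1 : ((Icc 1 n).filter (fun b => Q.Coprime (e + b))).card ≤
        ((Ico (e + 1) (e + 1 + n)).filter (fun x => Q.Coprime x)).card := by
      apply card_le_card_of_injOn (fun b => e + b)
      · intro b hb
        have hb' := mem_filter.1 (mem_coe.1 hb)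
        rw [mem_Icc] at hb'
        rw [mem_coe, mem_filter, mem_Ico]
        exact ⟨⟨by dsimp only; omega, by dsimp only; omega⟩, hb'.2⟩
      · intro a _ b _ hab
        dsimp only at hab
        omega
    exact h1.trans (Nat.Ico_filter_coprime_le (e + 1) n hQ0.ne')
  refine (sum_le_sum hcard).trans ?_
  rw [sum_const, smul_eq_mul, card_range]

/-- the upper bound in terms of the product over the primes up to `y` -/
lemma adm_le (k y : ℕ) {δ : ℝ} (hδ : 0 < δ) (hδ1 : δ < 1) : ∃ n₀ : ℕ, ∀ n : ℕ, n₀ ≤ n → ∀ x : ℕ,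
    x ≤ Qy y * ((Qy y).totient * (n / Qy y + 1)).choose k →
    (x : ℝ) ≤ 4 ^ y * ((1 + δ) / (1 - δ) * Pz y) ^ k * n.choose k := by
  have hP := Pz_pos y
  have hQ0 := Qy_pos y
  have hQr : (0 : ℝ) < Qy y := by exact_mod_cast hQ0
  refine ⟨⌈(Qy y : ℝ) / δ⌉₊ + ⌈(k : ℝ) / δ⌉₊ + k + 1, fun n hn x hx => ?_⟩
  have hn0 : (0 : ℝ) < n := by exact_mod_cast (by omega : 0 < n)
  have h1 : (Qy y : ℝ) ≤ δ * n := by
    have h2 : (Qy y : ℝ) / δ ≤ n := (Nat.le_ceil _).trans (by exact_mod_cast (by omega))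
    rw [div_le_iff₀ hδ] at h2
    linarith
  have h2 : (k : ℝ) ≤ δ * n := by
    have h3 : (k : ℝ) / δ ≤ n := (Nat.le_ceil _).trans (by exact_mod_cast (by omega))
    rw [div_le_iff₀ hδ] at h3
    linarith
  have hkf : (0 : ℝ) < (k.factorial : ℝ) := by exact_mod_cast k.factorial_pos
  have h3 : (((Qy y).totient * (n / Qy y + 1) : ℕ) : ℝ) ≤ (1 + δ) * (Pz y * n) := by
    push_cast
    rw [Qy_totient]
    have h4 : ((n / Qy y : ℕ) : ℝ) ≤ n / Qy y := Nat.cast_div_le
    calc (Qy y : ℝ) * Pz y * (((n / Qy y : ℕ) : ℝ) + 1) ≤ (Qy y : ℝ) * Pz y * (n / Qy y + 1) := by gcongr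
      _ = Pz y * n + Pz y * Qy y := by field_simp
      _ ≤ Pz y * n + Pz y * (δ * n) := by gcongr
      _ = _ := by ring
  have h4 : ((((Qy y).totient * (n / Qy y + 1)).choose k : ℕ) : ℝ) ≤ ((1 + δ) * (Pz y * n)) ^ k / k.factorial := by
    refine (Nat.choose_le_pow_div k _).trans ?_
    gcongr
  have h5 : ((1 - δ) * n) ^ k / k.factorial ≤ (n.choose k : ℝ) := by
    have hkn : k ≤ n := by omega
    have h6 := choose_ratio (m := n) (M := n) hkn (by omega)
    have h7 : ((1 - δ) * (n : ℝ)) ^ k ≤ ((n : ℝ) - k) ^ k := by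
      apply pow_le_pow_left₀ (by
        have : 0 < 1 - δ := by linarith
        positivity)
      linarith
    have h8 : (n + 1 - k) ^ k ≤ n.descFactorial k := Nat.pow_sub_le_descFactorial _ _
    have h9 : (n.descFactorial k : ℝ) = k.factorial * (n.choose k : ℝ) := by
      exact_mod_cast Nat.descFactorial_eq_factorial_mul_choose n k
    have h10 : ((n : ℝ) - k) ^ k ≤ ((n + 1 - k : ℕ) : ℝ) ^ k := by
      have hk' : (k : ℝ) ≤ n := by exact_mod_cast hkn
      apply pow_le_pow_left₀ (by linarith)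
      rw [Nat.cast_sub (by omega)]
      push_cast
      linarith
    have h11 : ((n + 1 - k : ℕ) : ℝ) ^ k ≤ (n.descFactorial k : ℝ) := by exact_mod_cast h8
    rw [div_le_iff₀ hkf]
    calc ((1 - δ) * (n : ℝ)) ^ k ≤ (n.descFactorial k : ℝ) := h7.trans (h10.trans h11)
      _ = _ := by rw [h9]; ring
  have h6 : (x : ℝ) ≤ (Qy y : ℝ) * ((((Qy y).totient * (n / Qy y + 1)).choose k : ℕ) : ℝ) := by exact_mod_cast hx
  have h7 : (Qy y : ℝ) ≤ 4 ^ y := by exact_mod_cast Qy_le y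
  have h1δ : 0 < 1 - δ := by linarith
  calc (x : ℝ) ≤ (Qy y : ℝ) * ((((Qy y).totient * (n / Qy y + 1)).choose k : ℕ) : ℝ) := h6
    _ ≤ 4 ^ y * (((1 + δ) * (Pz y * n)) ^ k / k.factorial) := by gcongr
    _ = 4 ^ y * ((1 + δ) / (1 - δ) * Pz y) ^ k * (((1 - δ) * n) ^ k / k.factorial) := by
        rw [show ((1 + δ) * (Pz y * n)) ^ k / (k.factorial : ℝ) =
          ((1 + δ) / (1 - δ) * Pz y) ^ k * (((1 - δ) * n) ^ k / k.factorial) by
            rw [← mul_div_assoc, ← mul_pow]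
            congr 2
            field_simp]
        ring
    _ ≤ _ := by gcongr

/-- **upper bound for the proportion of the admissible sets of shifts in an interval** -/
theorem upper {C : ℝ} (hC : Real.exp (-Real.eulerMascheroniConstant) < C) : ∃ k₀ : ℕ, ∀ k : ℕ, k₀ ≤ k →
    ∃ n₀ : ℕ, ∀ n : ℕ, n₀ ≤ n → ∀ x : ℕ, (∀ y : ℕ, x ≤ Qy y * ((Qy y).totient * (n / Qy y + 1)).choose k) →
      (x : ℝ) ≤ (C / Real.log k) ^ k * n.choose k := by
  obtain ⟨e0, he0⟩ : ∃ e0 : ℝ, e0 = Real.exp (-Real.eulerMascheroniConstant) := ⟨_, rfl⟩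
  have he : 0 < e0 := by rw [he0]; exact Real.exp_pos _
  rw [← he0] at hC
  -- the choice of the parameters
  have hcont : Tendsto (fun δ : ℝ => (1 + δ) * ((1 + δ) / (1 - δ)) * (e0 + δ)) (𝓝[>] 0) (𝓝 e0) := by
    have h1 : ContinuousAt (fun δ : ℝ => (1 + δ) * ((1 + δ) / (1 - δ)) * (e0 + δ)) 0 := by
      have : ContinuousAt (fun δ : ℝ => (1 + δ) / (1 - δ)) 0 := by
        apply ContinuousAt.div
        · fun_prop
        · fun_prop
        · norm_num
      fun_prop
    have h2 := h1.tendsto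
    simp only [add_zero, sub_zero, div_one, one_mul] at h2
    exact h2.mono_left nhdsWithin_le_nhds
  have hev : ∀ᶠ δ in 𝓝[>] (0 : ℝ), (1 + δ) * ((1 + δ) / (1 - δ)) * (e0 + δ) < C ∧ 0 < δ ∧ δ < 1 := by
    filter_upwards [hcont.eventually_lt_const hC, self_mem_nhdsWithin,
      nhdsWithin_le_nhds (eventually_lt_nhds (show (0 : ℝ) < 1 by norm_num))] with δ h1 h2 h3
    exact ⟨h1, h2, h3⟩
  obtain ⟨δ, hδ1, hδ0, hδ3⟩ := hev.exists
  -- the root of four
  obtain ⟨M, hM1, hM⟩ : ∃ M : ℕ, 1 ≤ M ∧ (4 : ℝ) ≤ (1 + δ) ^ M := by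
    obtain ⟨M, hM⟩ := pow_unbounded_of_one_lt (4 : ℝ) (show 1 < 1 + δ by linarith)
    refine ⟨M + 1, by omega, hM.le.trans ?_⟩
    exact pow_le_pow_right₀ (by linarith) (by omega)
  have hMr : (1 : ℝ) ≤ M := by exact_mod_cast hM1
  have hlim := mert_lin (f := fun k => k / M) (a := 1 / (2 * M)) (b := 1) (by positivity) (by
    filter_upwards [eventually_ge_atTop (2 * M)] with k hk
    have h1 := Nat.div_add_mod k M
    have h2 := Nat.mod_lt k (show 0 < M by omega)
    have h3 : (k : ℝ) = M * (k / M : ℕ) + (k % M : ℕ) := by exact_mod_cast h1.symm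
    have h4 : ((k % M : ℕ) : ℝ) ≤ M := by exact_mod_cast h2.le
    have h5 : 2 * (M : ℝ) ≤ k := by exact_mod_cast hk
    constructor
    · rw [one_div, inv_mul_le_iff₀ (by positivity)]
      nlinarith
    · rw [one_mul]
      exact_mod_cast Nat.div_le_self k M)
  rw [← he0] at hlim
  obtain ⟨k₁, hk₁⟩ := eventually_atTop.1 (hlim.eventually_lt_const (show e0 < e0 + δ by linarith))
  refine ⟨max k₁ 3, fun k hk => ?_⟩
  have hPk := hk₁ k ((le_max_left _ _).trans hk)
  have hk3 : 3 ≤ k := (le_max_right _ _).trans hk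
  have hlog : 0 < Real.log k := Real.log_pos (by exact_mod_cast (by omega : 1 < k))
  obtain ⟨n₀, hn₀⟩ := adm_le k (k / M) hδ0 hδ3
  refine ⟨n₀, fun n hn x hx => (hn₀ n hn x (hx (k / M))).trans ?_⟩
  apply mul_le_mul_of_nonneg_right _ (Nat.cast_nonneg _)
  have h1δ : 0 < 1 - δ := by linarith
  have hP := Pz_pos (k / M)
  have h4 : (4 : ℝ) ^ (k / M) ≤ (1 + δ) ^ k := by
    calc (4 : ℝ) ^ (k / M) ≤ ((1 + δ) ^ M) ^ (k / M) := pow_le_pow_left₀ (by norm_num) hM _
      _ = (1 + δ) ^ (M * (k / M)) := (pow_mul _ _ _).symm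
      _ ≤ (1 + δ) ^ k := pow_le_pow_right₀ (by linarith) (Nat.mul_div_le k M)
  calc (4 : ℝ) ^ (k / M) * ((1 + δ) / (1 - δ) * Pz (k / M)) ^ k
      ≤ (1 + δ) ^ k * ((1 + δ) / (1 - δ) * Pz (k / M)) ^ k := by gcongr
    _ = ((1 + δ) * ((1 + δ) / (1 - δ)) * Pz (k / M)) ^ k := by
        rw [← mul_pow]
        congr 1
        ring
    _ ≤ (C / Real.log k) ^ k := by
        apply pow_le_pow_left₀ (by positivity)
        rw [le_div_iff₀ hlog]
        calc (1 + δ) * ((1 + δ) / (1 - δ)) * Pz (k / M) * Real.log k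
            = (1 + δ) * ((1 + δ) / (1 - δ)) * (Pz (k / M) * Real.log k) := by ring
          _ ≤ (1 + δ) * ((1 + δ) / (1 - δ)) * (e0 + δ) := by gcongr
          _ ≤ C := hδ1.le

end Pool.Agent.U403.Dick
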