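import Pool.Agent.H305R2.MertensE

/-! # The third theorem of Mertens along sequences of linear growth -/

set_option autoImplicit false

namespace Pool.Agent.U403.Dick

open Filter Topology

/-- the product over the primes up to `z` -/
noncomputable def Pz (z : ℕ) : ℝ := ∏ p ∈ (Finset.Icc 1 z).filter Nat.Prime, (1 - (p : ℝ)⁻¹)

lemma Pz_pos (z : ℕ) : 0 < Pz z := by
  unfold Pz
  apply Finset.prod_pos
  intro p hp
  have h1 := (Finset.mem_filter.1 hp).2.two_le
  have h2 : (p : ℝ)⁻¹ < 1 := inv_lt_one_of_one_lt₀ (by exact_mod_cast (by omega : 1 < p))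
  linarith

lemma mert : Tendsto (fun N : ℕ => Pz N * Real.log N) atTop (𝓝 (Real.exp (-Real.eulerMascheroniConstant))) := by
  have h := Pool.Agent.H305R2.mertens_three.inv₀ (Real.exp_pos _).ne'
  rw [← Real.exp_neg] at h
  refine h.congr fun N => ?_
  unfold Pz
  rw [Finset.prod_inv_distrib, inv_div, div_inv_eq_mul, mul_comm]

lemma log_lin {f : ℕ → ℕ} {a b : ℝ} (ha : 0 < a) (h : ∀ᶠ k : ℕ in atTop, a * k ≤ f k ∧ (f k : ℝ) ≤ b * k) :
    Tendsto (fun k : ℕ => Real.log (f k) / Real.log k) atTop (𝓝 1) := by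
  have hL : Tendsto (fun k : ℕ => Real.log (k : ℝ)) atTop atTop :=
    Real.tendsto_log_atTop.comp tendsto_natCast_atTop_atTop
  have hc : ∀ c : ℝ, Tendsto (fun k : ℕ => c / Real.log (k : ℝ) + 1) atTop (𝓝 1) := by
    intro c
    have := (tendsto_const_nhds (x := c)).div_atTop hL
    simpa using this.add_const 1
  refine tendsto_of_tendsto_of_tendsto_of_le_of_le' (hc (Real.log a)) (hc (Real.log b)) ?_ ?_
  · filter_upwards [h, hL.eventually_gt_atTop 0, eventually_gt_atTop 0] with k hk hl hk0
    have hk0' : (0 : ℝ) < k := by exact_mod_cast hk0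
    have h1 : Real.log a + Real.log k ≤ Real.log (f k) := by
      rw [← Real.log_mul ha.ne' hk0'.ne']
      exact Real.log_le_log (by positivity) hk.1
    rw [div_add_one hl.ne', div_le_div_iff_of_pos_right hl]
    exact h1
  · filter_upwards [h, hL.eventually_gt_atTop 0, eventually_gt_atTop 0] with k hk hl hk0
    have hk0' : (0 : ℝ) < k := by exact_mod_cast hk0
    have hf : (0 : ℝ) < f k := lt_of_lt_of_le (by positivity) hk.1
    have hb : 0 < b := by
      by_contra hcon
      push Not at hcon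
      have : b * k ≤ 0 := mul_nonpos_of_nonpos_of_nonneg hcon hk0'.le
      linarith [hk.2]
    have h1 : Real.log (f k) ≤ Real.log b + Real.log k := by
      rw [← Real.log_mul hb.ne' hk0'.ne']
      exact Real.log_le_log hf hk.2
    rw [div_add_one hl.ne', div_le_div_iff_of_pos_right hl]
    exact h1

lemma mert_lin {f : ℕ → ℕ} {a b : ℝ} (ha : 0 < a) (h : ∀ᶠ k : ℕ in atTop, a * k ≤ f k ∧ (f k : ℝ) ≤ b * k) :
    Tendsto (fun k : ℕ => Pz (f k) * Real.log k) atTop (𝓝 (Real.exp (-Real.eulerMascheroniConstant))) := by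
  have hf : Tendsto f atTop atTop := by
    have h1 : Tendsto (fun k : ℕ => a * (k : ℝ)) atTop atTop :=
      tendsto_natCast_atTop_atTop.const_mul_atTop ha
    have h2 : Tendsto (fun k : ℕ => (f k : ℝ)) atTop atTop :=
      tendsto_atTop_mono' _ (h.mono fun k hk => hk.1) h1
    exact tendsto_natCast_atTop_iff.1 h2
  have h1 := (mert.comp hf).mul ((log_lin ha h).inv₀ one_ne_zero)
  rw [inv_one, mul_one] at h1
  have hL : Tendsto (fun k : ℕ => Real.log (k : ℝ)) atTop atTop :=
    Real.tendsto_log_atTop.comp tendsto_natCast_atTop_atTop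
  refine h1.congr' ?_
  filter_upwards [hf.eventually_gt_atTop 1, hL.eventually_gt_atTop 0] with k hk hl
  have h2 : Real.log (f k) ≠ 0 := (Real.log_pos (by exact_mod_cast hk)).ne'
  simp only [Function.comp]
  rw [inv_div]
  field_simp

end Pool.Agent.U403.Dick
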