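import Mathlib

/-! # Arbitrary sets of linear forms: a large subset without local obstructions, and boxes of classes -/

set_option autoImplicit false

namespace Pool.Agent.U403.Dick

open Finset

/-- a form which is not zero has at most one root modulo a prime -/
lemma roots_le {p : ℕ} [Fact p.Prime] (a b : ZMod p) (h : a ≠ 0 ∨ b ≠ 0) :
    (univ.filter (fun n : ZMod p => a * n + b = 0)).card ≤ 1 := by
  rw [card_le_one]
  intro x hx y hy
  rw [mem_filter] at hx hy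
  by_cases ha : a = 0
  · exfalso
    rcases h with h | h
    · exact h ha
    · apply h
      have := hx.2
      rw [ha, zero_mul, zero_add] at this
      exact this
  · have h1 : a * (x - y) = 0 := by linear_combination hx.2 - hy.2
    rcases mul_eq_zero.1 h1 with h2 | h2
    · exact absurd h2 ha
    · exact sub_eq_zero.1 h2

/-- primitive forms are not zero modulo `p` -/
lemma prim_ne {p : ℕ} [Fact p.Prime] {f : ℤ × ℤ} (h : IsCoprime f.1 f.2) :
    ((f.1 : ZMod p) ≠ 0 ∨ (f.2 : ZMod p) ≠ 0) := by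
  by_contra hcon
  push Not at hcon
  obtain ⟨u, v, huv⟩ := h
  have h1 : ((u * f.1 + v * f.2 : ℤ) : ZMod p) = 1 := by rw [huv]; exact Int.cast_one
  push_cast at h1
  rw [hcon.1, hcon.2, mul_zero, mul_zero, add_zero] at h1
  exact zero_ne_one h1

lemma dvd_iff {p : ℕ} (f : ℤ × ℤ) (r : ℤ) : (p : ℤ) ∣ f.1 * r + f.2 ↔
    (f.1 : ZMod p) * (r : ZMod p) + (f.2 : ZMod p) = 0 := by
  rw [← ZMod.intCast_zmod_eq_zero_iff_dvd]
  push_cast
  rfl

/-- few pairs modulo `p` have a common non-root -/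
lemma avoid {p : ℕ} (hp : p.Prime) (s : Finset (ZMod p × ZMod p)) (hs : ∀ x ∈ s, x.1 ≠ 0 ∨ x.2 ≠ 0)
    (hc : s.card < p) : ∃ r : ℤ, ∀ x ∈ s, x.1 * (r : ZMod p) + x.2 ≠ 0 := by
  classical
  have : Fact p.Prime := ⟨hp⟩
  have h1 : (s.biUnion fun x => univ.filter (fun n : ZMod p => x.1 * n + x.2 = 0)).card <
      (univ : Finset (ZMod p)).card := by
    rw [card_univ, ZMod.card]
    refine lt_of_le_of_lt card_biUnion_le ?_
    refine lt_of_le_of_lt (sum_le_sum fun x hx => roots_le x.1 x.2 (hs x hx)) ?_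
    rw [sum_const, smul_eq_mul, mul_one]
    exact hc
  obtain ⟨n, _, hn⟩ := exists_mem_notMem_of_card_lt_card h1
  refine ⟨(n.val : ℤ), fun x hx h => hn ?_⟩
  rw [mem_biUnion]
  refine ⟨x, hx, ?_⟩
  rw [mem_filter]
  refine ⟨mem_univ _, ?_⟩
  push_cast at h
  rw [ZMod.natCast_zmod_val] at h
  exact h

/-- one prime: remove the forms which vanish at the best residue -/
lemma step {p : ℕ} (hp : p.Prime) (V : Finset (ℤ × ℤ)) (hV : ∀ f ∈ V, IsCoprime f.1 f.2) :
    ∃ r : ℤ, (1 - (p : ℝ)⁻¹) * V.card ≤ ((V.filter (fun f => ¬ (p : ℤ) ∣ f.1 * r + f.2)).card : ℝ) := by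
  classical
  have : Fact p.Prime := ⟨hp⟩
  obtain ⟨R, hR⟩ : ∃ R : ZMod p → ℕ, R = fun n =>
    (V.filter (fun f => (f.1 : ZMod p) * n + (f.2 : ZMod p) = 0)).card := ⟨_, rfl⟩
  have h1 : ∑ n : ZMod p, R n ≤ V.card := by
    have h2 : ∑ n : ZMod p, R n =
        ∑ f ∈ V, (univ.filter (fun n : ZMod p => (f.1 : ZMod p) * n + (f.2 : ZMod p) = 0)).card := by
      rw [hR]
      simp only [card_filter]
      exact sum_comm
    rw [h2]
    refine (sum_le_sum fun f hf => roots_le _ _ (prim_ne (hV f hf))).trans ?_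
    rw [sum_const, smul_eq_mul, mul_one]
  obtain ⟨n, _, hn⟩ := exists_le_of_sum_le (s := (univ : Finset (ZMod p))) (f := fun n => p * R n)
    (g := fun _ => V.card) univ_nonempty (by
      rw [← mul_sum, sum_const, card_univ, ZMod.card, smul_eq_mul]
      exact Nat.mul_le_mul_left p h1)
  refine ⟨(n.val : ℤ), ?_⟩
  have h3 := card_filter_add_card_filter_not (s := V) (fun f => (p : ℤ) ∣ f.1 * (n.val : ℤ) + f.2)
  have h4 : (V.filter (fun f => (p : ℤ) ∣ f.1 * (n.val : ℤ) + f.2)).card = R n := by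
    rw [hR]
    congr 1
    apply filter_congr
    intro f _
    rw [dvd_iff]
    push_cast
    rw [ZMod.natCast_zmod_val]
  rw [h4] at h3
  have hp0 : (0 : ℝ) < p := by exact_mod_cast hp.pos
  have h5 : (R n : ℝ) ≤ (p : ℝ)⁻¹ * V.card := by
    rw [inv_mul_eq_div, le_div_iff₀ hp0, mul_comm]
    exact_mod_cast hn
  have h6 : (R n : ℝ) + ((V.filter (fun f => ¬ (p : ℤ) ∣ f.1 * (n.val : ℤ) + f.2)).card : ℝ) = V.card := by
    exact_mod_cast h3
  linarith

/-- a large subset without obstructions at the primes up to `z` -/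
lemma select (z : ℕ) (F : Finset (ℤ × ℤ)) (hF : ∀ f ∈ F, IsCoprime f.1 f.2) :
    ∃ V ⊆ F, (∏ p ∈ (Icc 1 z).filter Nat.Prime, (1 - (p : ℝ)⁻¹)) * F.card ≤ V.card ∧
      ∀ p : ℕ, p ≤ z → p.Prime → ∃ r : ℤ, ∀ f ∈ V, ¬ (p : ℤ) ∣ f.1 * r + f.2 := by
  induction z with
  | zero =>
    refine ⟨F, Subset.refl _, by simp, fun p hp hpp => ?_⟩
    exact absurd hpp.pos (by omega)
  | succ z ih =>
    obtain ⟨V, hVF, hVc, hV⟩ := ih
    by_cases hp : (z + 1).Prime
    · obtain ⟨r, hr⟩ := step hp V (fun f hf => hF f (hVF hf))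
      refine ⟨V.filter (fun f => ¬ ((z + 1 : ℕ) : ℤ) ∣ f.1 * r + f.2), (filter_subset _ _).trans hVF, ?_, ?_⟩
      · have h1 : (Icc 1 (z + 1)).filter Nat.Prime = insert (z + 1) ((Icc 1 z).filter Nat.Prime) := by
          ext p
          rw [mem_filter, mem_insert, mem_filter, mem_Icc, mem_Icc]
          constructor
          · rintro ⟨⟨a1, a2⟩, a3⟩
            by_cases h : p = z + 1
            · exact Or.inl h
            · exact Or.inr ⟨⟨a1, by omega⟩, a3⟩
          · rintro (rfl | ⟨⟨a1, a2⟩, a3⟩)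
            · exact ⟨⟨by omega, le_rfl⟩, hp⟩
            · exact ⟨⟨a1, by omega⟩, a3⟩
        rw [h1, prod_insert (by simp)]
        refine le_trans ?_ hr
        have h2 : (0 : ℝ) ≤ 1 - ((z + 1 : ℕ) : ℝ)⁻¹ := by
          have : ((z + 1 : ℕ) : ℝ)⁻¹ ≤ 1 := inv_le_one_of_one_le₀ (by exact_mod_cast (by omega : 1 ≤ z + 1))
          linarith
        calc (1 - ((z + 1 : ℕ) : ℝ)⁻¹) * (∏ p ∈ (Icc 1 z).filter Nat.Prime, (1 - (p : ℝ)⁻¹)) * F.card
            = (1 - ((z + 1 : ℕ) : ℝ)⁻¹) * ((∏ p ∈ (Icc 1 z).filter Nat.Prime, (1 - (p : ℝ)⁻¹)) * F.card) := by ring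
          _ ≤ _ := mul_le_mul_of_nonneg_left hVc h2
      · intro p hpz hpp
        by_cases h : p = z + 1
        · subst h
          exact ⟨r, fun f hf => (mem_filter.1 hf).2⟩
        · obtain ⟨r', hr'⟩ := hV p (by omega) hpp
          exact ⟨r', fun f hf => hr' f (mem_filter.1 hf).1⟩
    · refine ⟨V, hVF, ?_, fun p hpz hpp => ?_⟩
      · have h1 : (Icc 1 (z + 1)).filter Nat.Prime = (Icc 1 z).filter Nat.Prime := by
          ext p
          rw [mem_filter, mem_filter, mem_Icc, mem_Icc]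
          constructor
          · rintro ⟨⟨a1, a2⟩, a3⟩
            have : p ≠ z + 1 := by rintro rfl; exact hp a3
            exact ⟨⟨a1, by omega⟩, a3⟩
          · rintro ⟨⟨a1, a2⟩, a3⟩
            exact ⟨⟨a1, by omega⟩, a3⟩
        rw [h1]
        exact hVc
      · have : p ≠ z + 1 := by rintro rfl; exact hp hpp
        exact hV p (by omega) hpp

/-- a box of classes: thinning of large disjoint parts -/
lemma box {T K : ℕ} (hK : 1 ≤ K) (V : Finset (ℤ × ℤ)) (hV : ∀ f ∈ V, IsCoprime f.1 f.2)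
    (hadm : ∀ p : ℕ, p ≤ T → p.Prime → ∃ r : ℤ, ∀ f ∈ V, ¬ (p : ℤ) ∣ f.1 * r + f.2)
    (A : Fin T → Finset V) (hA : ∀ g, (A g).card = (T * K).factorial * (T * K).factorial * K)
    (hdisj : ∀ g g', g ≠ g' → Disjoint (A g) (A g')) :
    ∃ H : Fin T → Fin K → V, (∀ g i, H g i ∈ A g) ∧
      Function.Injective (fun x : Fin T × Fin K => (H x.1 x.2 : ℤ × ℤ)) ∧
      ∀ p : ℕ, p.Prime → p ≤ T * K → ∃ r : ℤ, ∀ g i, ¬ (p : ℤ) ∣ (H g i : ℤ × ℤ).1 * r + (H g i : ℤ × ℤ).2 := by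
  classical
  obtain ⟨Q, hQ⟩ : ∃ Q : ℕ, Q = (T * K).factorial := ⟨_, rfl⟩
  have hQ0 : 0 < Q := by rw [hQ]; exact Nat.factorial_pos _
  have hne : NeZero Q := ⟨hQ0.ne'⟩
  have h : ∀ g, ∃ e : Fin K → V, Function.Injective e ∧ (∀ i, e i ∈ A g) ∧
      ∃ ρ : ZMod Q × ZMod Q, ∀ i, (((e i : ℤ × ℤ).1 : ZMod Q), ((e i : ℤ × ℤ).2 : ZMod Q)) = ρ := by
    intro g
    obtain ⟨ρ, -, hρ⟩ := exists_le_card_fiber_of_mul_le_card_of_maps_to (s := A g)
      (t := (univ : Finset (ZMod Q × ZMod Q)))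
      (f := fun v : V => (((v : ℤ × ℤ).1 : ZMod Q), ((v : ℤ × ℤ).2 : ZMod Q))) (n := K)
      (fun _ _ => mem_univ _) univ_nonempty (by
        rw [card_univ, Fintype.card_prod, ZMod.card, hA g, ← hQ])
    obtain ⟨s, hs, hsc⟩ := exists_subset_card_eq hρ
    refine ⟨fun i => ((s.equivFinOfCardEq hsc).symm i : V), fun i j hij => ?_, fun i => ?_, ρ, fun i => ?_⟩
    · exact (s.equivFinOfCardEq hsc).symm.injective (Subtype.ext hij)
    · exact (mem_filter.1 (hs ((s.equivFinOfCardEq hsc).symm i).2)).1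
    · exact (mem_filter.1 (hs ((s.equivFinOfCardEq hsc).symm i).2)).2
  choose e he1 he2 ρ hρ using h
  refine ⟨e, he2, ?_, fun p hp hle => ?_⟩
  · rintro ⟨g, i⟩ ⟨g', i'⟩ hx
    have hx' : e g i = e g' i' := Subtype.ext hx
    have hgg : g = g' := by
      by_contra hgg
      have h1 := he2 g i
      rw [hx'] at h1
      exact (disjoint_left.1 (hdisj g g' hgg)) h1 (he2 g' i')
    subst hgg
    rw [he1 g hx']
  · have hfp : Fact p.Prime := ⟨hp⟩
    by_cases hpT : p ≤ T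
    · obtain ⟨r, hr⟩ := hadm p hpT hp
      exact ⟨r, fun g i => hr _ (e g i).2⟩
    · push Not at hpT
      have hpQ : p ∣ Q := by rw [hQ]; exact (hp.dvd_factorial).2 hle
      have key : ∀ g i, (((e g i : ℤ × ℤ).1 : ZMod p), ((e g i : ℤ × ℤ).2 : ZMod p)) =
          (((e g ⟨0, by omega⟩ : ℤ × ℤ).1 : ZMod p), ((e g ⟨0, by omega⟩ : ℤ × ℤ).2 : ZMod p)) := by
        intro g i
        have h1 := (hρ g i).trans (hρ g ⟨0, by omega⟩).symm
        rw [Prod.mk.injEq] at h1 ⊢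
        obtain ⟨h2, h3⟩ := h1
        have cast : ∀ x y : ℤ, (x : ZMod Q) = y → (x : ZMod p) = y := by
          intro x y hxy
          rw [ZMod.intCast_eq_intCast_iff] at hxy ⊢
          exact hxy.of_dvd (by exact_mod_cast hpQ)
        exact ⟨cast _ _ h2, cast _ _ h3⟩
      obtain ⟨r, hr⟩ := avoid hp ((univ : Finset (Fin T)).image (fun g =>
        (((e g ⟨0, by omega⟩ : ℤ × ℤ).1 : ZMod p), ((e g ⟨0, by omega⟩ : ℤ × ℤ).2 : ZMod p)))) (by
          intro x hx
          rw [mem_image] at hx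
          obtain ⟨g, -, rfl⟩ := hx
          exact prim_ne (hV _ (e g ⟨0, by omega⟩).2)) (by
          refine lt_of_le_of_lt card_image_le ?_
          rw [card_univ, Fintype.card_fin]
          exact hpT)
      refine ⟨r, fun g i => ?_⟩
      rw [dvd_iff]
      have h1 := hr _ (mem_image.2 ⟨g, mem_univ _, rfl⟩)
      have h2 := key g i
      rw [Prod.mk.injEq] at h2
      rw [h2.1, h2.2]
      exact h1

end Pool.Agent.U403.Dick
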